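import Pool.Agent.N510.LT.RingF

set_option autoImplicit false
set_option linter.unusedSectionVars false

/-! Quadratic forms with unit coefficients over group rings `RΓ`, `R` a ring with involution: the
exact critical norm of the support pattern is `3 / √2`. -/

namespace Pool.Agent.Results.MP_8a3537_gt.CriticalPatternForms

open Matrix

section defs

variable {R : Type} [Ring R] [StarRing R] {Γ : Type} [Group Γ]

/-- the adjoint of a matrix over `RΓ`, for the involution `∑ r_g g ↦ ∑ star r_g g⁻¹` -/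
noncomputable def adjoint {κ μ : Type} (A : Matrix κ μ (MonoidAlgebra R Γ)) :
    Matrix μ κ (MonoidAlgebra R Γ) :=
  Matrix.of fun j i =>
    ∑ g ∈ (A i j).coeff.support, MonoidAlgebra.single g⁻¹ (star ((A i j).coeff g))

/-- the `ε`-symmetric form `λ = ψ + εψ*` of the `ε`-quadratic form `ψ` -/
noncomputable def symmetrization {κ : Type} (ε : ℤ) (ψ : Matrix κ κ (MonoidAlgebra R Γ)) :
    Matrix κ κ (MonoidAlgebra R Γ) := ψ + ε • adjoint ψ

open Classical in
/-- the support pattern of `A`, a matrix over `ℝΓ`: the coefficients that are not zero are replaced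
by one -/
noncomputable def pattern {κ μ : Type} (A : Matrix κ μ (MonoidAlgebra R Γ)) :
    Matrix κ μ (MonoidAlgebra ℝ Γ) :=
  A.map fun x => MonoidAlgebra.ofCoeff
    (x.coeff.mapRange (fun r : R => if r = 0 then (0 : ℝ) else 1) (if_pos rfl))

/-- the squared `ℓ²`-norm of a finitely supported vector in `ℓ²(Γ)^κ` -/
noncomputable def normSq {κ : Type} [Fintype κ] (x : κ → MonoidAlgebra ℝ Γ) : ℝ :=
  ∑ i, ∑ g ∈ (x i).coeff.support, (x i).coeff g ^ 2

/-- The operator norm of `B`, acting on the row vectors in `ℓ²(Γ)^κ`, is at most `|c|`. -/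
def NormLE {κ μ : Type} [Fintype κ] [Fintype μ] (B : Matrix κ μ (MonoidAlgebra ℝ Γ)) (c : ℝ) :
    Prop := ∀ x : κ → MonoidAlgebra ℝ Γ, normSq (x ᵥ* B) ≤ c ^ 2 * normSq x

/-- all coefficients that are not zero are units of `R` -/
def UnitCoeff {κ μ : Type} (A : Matrix κ μ (MonoidAlgebra R Γ)) : Prop :=
  ∀ i j g, (A i j).coeff g ≠ 0 → IsUnit ((A i j).coeff g)

/-- isometry of `ε`-quadratic forms (matrices modulo the matrices `χ - εχ*`) -/
def Isometric {κ : Type} [Fintype κ] [DecidableEq κ] (ε : ℤ)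
    (ψ ψ' : Matrix κ κ (MonoidAlgebra R Γ)) : Prop :=
  ∃ (E : (Matrix κ κ (MonoidAlgebra R Γ))ˣ) (χ : Matrix κ κ (MonoidAlgebra R Γ)),
    E.val * ψ * adjoint E.val = ψ' + (χ - ε • adjoint χ)

/-- The sum of the planes with `q(x) = a k`, `q(y) = b k` and `λ(x, y) = 1`; the hyperbolic plane is
the one with `a k = b k = 0`. -/
noncomputable def planes (Γ : Type) [Group Γ] {μ : Type} [DecidableEq μ] (a b : μ → R) :
    Matrix (μ ⊕ μ) (μ ⊕ μ) (MonoidAlgebra R Γ) :=
  fromBlocks (diagonal fun k => MonoidAlgebra.single 1 (a k)) 1 0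
    (diagonal fun k => MonoidAlgebra.single 1 (b k))

end defs

section aux

open TH57.Thr TH6.LF TH6.PF Pool.Agent.N510.LT

variable {R : Type} [Ring R] [StarRing R] {Γ : Type} [Group Γ] {κ : Type} [Fintype κ]
  [DecidableEq κ]

theorem adjoint_eq {κ μ : Type} (A : Matrix κ μ (MonoidAlgebra R Γ)) :
    adjoint A = sadj (1 : Γ →* ℤˣ) A := by
  ext1 j i
  change ∑ g ∈ (A i j).coeff.support, MonoidAlgebra.single g⁻¹ (star ((A i j).coeff g))
    = sbar (1 : Γ →* ℤˣ) (A i j)
  unfold sbar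
  refine Finset.sum_congr rfl fun g _ => ?_
  rw [MonoidHom.one_apply, Units.val_one, one_smul]

theorem sym_eq {κ : Type} (ε : ℤ) (ψ : Matrix κ κ (MonoidAlgebra R Γ)) :
    symmetrization ε ψ = glam (1 : Γ →* ℤˣ) ε ψ := by
  unfold symmetrization glam
  rw [adjoint_eq]

theorem pattern_eq {κ μ : Type} (A : Matrix κ μ (MonoidAlgebra R Γ)) :
    pattern A = toReal (pat A) := by
  classical
  ext i j g
  simp only [toReal, Matrix.map_apply, MonoidAlgebra.coeff_mapRingHom, coeff_pat]
  change (if (A i j).coeff g = 0 then (0 : ℝ) else 1) = ((ind ((A i j).coeff g) : ℤ) : ℝ)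
  by_cases h : (A i j).coeff g = 0
  · rw [if_pos h, h, ind_zero, Int.cast_zero]
  · rw [if_neg h, ind_of_ne h, Int.cast_one]

theorem norm_iff {κ μ : Type} [Fintype κ] [Fintype μ] (A : Matrix κ μ (MonoidAlgebra R Γ))
    (c : ℝ) : NormLE (pattern A) c ↔ TH57.Thr.NormLE (pat A) c := by
  rw [pattern_eq]
  rfl

theorem iso_of {U : Subgroup (MonoidAlgebra R Γ)ˣ} {ε : ℤ} {ψ ψ' : Matrix κ κ (MonoidAlgebra R Γ)}
    (h : GIso (1 : Γ →* ℤˣ) U ε ψ ψ') : Isometric ε ψ ψ' := by
  obtain ⟨E, χ, _, h2⟩ := h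
  refine ⟨E, χ, ?_⟩
  rw [adjoint_eq, adjoint_eq]
  exact h2

end aux

open Pool.Agent.N510.LT in
/-- Let `R` be a nontrivial ring with involution, `Γ` a group and `ε = ±1`. (1) Suppose that `R` has a
homomorphism `f` to the field of two elements with `f (star r) = f r` and that `Γ` has no element of
order two (for instance, `Γ` is torsion-free). Then each nonsingular `ε`-quadratic form `ψ` over `RΓ`
such that all nonzero coefficients of `λ = ψ + εψ*` are units of `R` and the support pattern of `λ`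
has operator norm less than `3 / √2` is, up to the order of the basis, isometric to a sum of planes
defined over `R`. (2) Suppose that the additive group of `R` is generated by the units of `R`. Then
for every real `c > 3 / √2` each `ε`-quadratic form over `RΓ` is, after adding hyperbolic planes,
isometric to a form for which all nonzero coefficients of `λ` are units of `R` and the support
pattern of `λ` has operator norm at most `c`. -/
theorem result (R : Type) [Ring R] [StarRing R] [Nontrivial R] (Γ : Type) [Group Γ] (ε : ℤ)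
    (hε : ε = 1 ∨ ε = -1) :
    ((∃ f : R →+* ZMod 2, ∀ r, f (star r) = f r) → (∀ g : Γ, g * g = 1 → g = 1) →
      ∀ c : ℝ, 0 ≤ c → c < 3 / Real.sqrt 2 →
      ∀ (κ : Type) [Fintype κ] [DecidableEq κ] (ψ : Matrix κ κ (MonoidAlgebra R Γ)),
        IsUnit (symmetrization ε ψ) → UnitCoeff (symmetrization ε ψ) →
        NormLE (pattern (symmetrization ε ψ)) c →
        ∃ (m : ℕ) (e : Fin m ⊕ Fin m ≃ κ) (a b : Fin m → R),
          (∀ k, a k + ε • star (a k) = 0 ∧ b k + ε • star (b k) = 0) ∧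
          Isometric ε (ψ.submatrix e e) (planes Γ a b)) ∧
    (AddSubgroup.closure {r : R | IsUnit r} = ⊤ → ∀ c : ℝ, 3 / Real.sqrt 2 < c →
      ∀ (κ : Type) [Fintype κ] [DecidableEq κ] (ψ : Matrix κ κ (MonoidAlgebra R Γ)),
        ∃ (m : ℕ) (φ : Matrix (κ ⊕ (Fin m ⊕ Fin m)) (κ ⊕ (Fin m ⊕ Fin m)) (MonoidAlgebra R Γ)),
          Isometric ε (fromBlocks ψ 0 0 (planes Γ (fun _ => 0) (fun _ => 0))) φ ∧
          UnitCoeff (symmetrization ε φ) ∧ NormLE (pattern (symmetrization ε φ)) c) := by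
  classical
  have hr0 : 0 < Real.sqrt 2 := Real.sqrt_pos.2 two_pos
  have hr2 : Real.sqrt 2 ^ 2 = 2 := Real.sq_sqrt two_pos.le
  have h3 : (3 / Real.sqrt 2) ^ 2 = 9 / 2 := by rw [div_pow, hr2]; norm_num
  have h3p : 0 < 3 / Real.sqrt 2 := div_pos (by norm_num) hr0
  have hεε : ε * ε = 1 := by rcases hε with rfl | rfl <;> norm_num
  refine ⟨fun ⟨f, hf⟩ htf c hc0 hc κ _ _ ψ hu hC hN => ?_, fun hgen c hc κ _ _ ψ => ?_⟩
  · set d := (c + 3 / Real.sqrt 2) / 2 with hd
    have hd0 : 0 < d := by positivity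
    have hcd : c ≤ d := by rw [hd]; linarith
    have hd2 : d ^ 2 < 9 / 2 := by
      rw [← h3]
      exact pow_lt_pow_left₀ (by rw [hd]; linarith) hd0.le two_ne_zero
    rw [sym_eq] at hu hN hC
    have hN' : TH57.Thr.NormLE (TH6.PF.pat (glam (1 : Γ →* ℤˣ) ε ψ)) d := by
      intro x
      refine ((norm_iff _ _).1 hN x).trans (mul_le_mul_of_nonneg_right ?_
        (TH57.Thr.normSq_nonneg x))
      exact pow_le_pow_left₀ hc0 hcd 2
    obtain ⟨m, e, a, b, h1, h4⟩ := ring_main f hf (1 : Γ →* ℤˣ) htf hεε hd0 hd2 ψ hu hC hN'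
    exact ⟨m, e, a, b, h1, iso_of h4⟩
  · have hc0 : 0 < c := h3p.trans hc
    have hc2 : 9 / 2 < c ^ 2 := by
      rw [← h3]
      exact pow_lt_pow_left₀ hc h3p.le two_ne_zero
    obtain ⟨m, φ, _, _, hφ⟩ := ring_reduction (gens_units hgen) (fun s hs => isUnit_star.2 hs)
      (1 : Γ →* ℤˣ) hc0 hc2 ψ
    obtain ⟨h1, h2, h4⟩ := hφ ε hε
    refine ⟨m, φ, ?_, ?_, ?_⟩
    · have h5 : (planes Γ (fun _ => 0) (fun _ => 0) : Matrix (Fin m ⊕ Fin m) (Fin m ⊕ Fin m)
          (MonoidAlgebra R Γ)) = fromBlocks 0 1 0 0 := by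
        ext1 x y
        rcases x with x | x <;> rcases y with y | y <;> simp [planes]
      rw [h5]
      exact iso_of h1
    · rw [sym_eq]
      exact h2
    · rw [sym_eq, norm_iff]
      exact h4

end Pool.Agent.Results.MP_8a3537_gt.CriticalPatternForms
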