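import Pool.Agent.N510.LT.AllR

set_option autoImplicit false
set_option linter.unusedSectionVars false

/-! Quadratic forms over group rings `RΓ`, `R` any ring with involution, near the hyperbolic form:
`√2` is the exact critical distance in the norm of the support pattern. -/

namespace Pool.Agent.Results.MP_8a3537_gt.HyperbolicDistanceAllRings

open Matrix

section defs

variable {R : Type} [Ring R] [StarRing R] {Γ : Type} [Group Γ]

/-- the adjoint of a matrix over `RΓ`, for the involution `∑ r_g g ↦ ∑ star r_g g⁻¹` -/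
noncomputable def adjoint {κ μ : Type} (A : Matrix κ μ (MonoidAlgebra R Γ)) :
    Matrix μ κ (MonoidAlgebra R Γ) :=
  Matrix.of fun j i =>
    ∑ g ∈ (A i j).coeff.support, MonoidAlgebra.single g⁻¹ (star ((A i j).coeff g))

/-- the `ε`-symmetric form `λ = ψ + εψ*` of the `ε`-quadratic form `ψ` -/
noncomputable def symmetrization {κ : Type} (ε : ℤ) (ψ : Matrix κ κ (MonoidAlgebra R Γ)) :
    Matrix κ κ (MonoidAlgebra R Γ) := ψ + ε • adjoint ψ

open Classical in
/-- the support pattern of `A`, a matrix over `ℝΓ`: the coefficients that are not zero are replaced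
by one -/
noncomputable def pattern {κ μ : Type} (A : Matrix κ μ (MonoidAlgebra R Γ)) :
    Matrix κ μ (MonoidAlgebra ℝ Γ) :=
  A.map fun x => MonoidAlgebra.ofCoeff
    (x.coeff.mapRange (fun r : R => if r = 0 then (0 : ℝ) else 1) (if_pos rfl))

/-- the squared `ℓ²`-norm of a finitely supported vector in `ℓ²(Γ)^κ` -/
noncomputable def normSq {κ : Type} [Fintype κ] (x : κ → MonoidAlgebra ℝ Γ) : ℝ :=
  ∑ i, ∑ g ∈ (x i).coeff.support, (x i).coeff g ^ 2

/-- The operator norm of `B`, acting on the row vectors in `ℓ²(Γ)^κ`, is at most `|c|`. -/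
def NormLE {κ μ : Type} [Fintype κ] [Fintype μ] (B : Matrix κ μ (MonoidAlgebra ℝ Γ)) (c : ℝ) :
    Prop := ∀ x : κ → MonoidAlgebra ℝ Γ, normSq (x ᵥ* B) ≤ c ^ 2 * normSq x

/-- isometry of `ε`-quadratic forms (matrices modulo the matrices `χ - εχ*`) -/
def Isometric {κ : Type} [Fintype κ] [DecidableEq κ] (ε : ℤ)
    (ψ ψ' : Matrix κ κ (MonoidAlgebra R Γ)) : Prop :=
  ∃ (E : (Matrix κ κ (MonoidAlgebra R Γ))ˣ) (χ : Matrix κ κ (MonoidAlgebra R Γ)),
    E.val * ψ * adjoint E.val = ψ' + (χ - ε • adjoint χ)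

/-- The sum of the planes with `q(x) = a k`, `q(y) = b k` and `λ(x, y) = 1`, defined over `R`. -/
noncomputable def planes (Γ : Type) [Group Γ] {μ : Type} [DecidableEq μ] (a b : μ → R) :
    Matrix (μ ⊕ μ) (μ ⊕ μ) (MonoidAlgebra R Γ) :=
  fromBlocks (diagonal fun k => MonoidAlgebra.single 1 (a k)) 1 0
    (diagonal fun k => MonoidAlgebra.single 1 (b k))

/-- the sum of hyperbolic planes, indexed by `μ` -/
noncomputable def hyperbolic (R Γ : Type) [Ring R] [Group Γ] (μ : Type) [DecidableEq μ] :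
    Matrix (μ ⊕ μ) (μ ⊕ μ) (MonoidAlgebra R Γ) := planes Γ (fun _ => 0) (fun _ => 0)

end defs

section aux

open TH57.Thr TH6.LF TH6.PF Pool.Agent.N510.LT

variable {R : Type} [Ring R] [StarRing R] {Γ : Type} [Group Γ] {κ : Type} [Fintype κ]
  [DecidableEq κ]

theorem adjoint_eq {κ μ : Type} (A : Matrix κ μ (MonoidAlgebra R Γ)) :
    adjoint A = sadj (1 : Γ →* ℤˣ) A := by
  ext1 j i
  change ∑ g ∈ (A i j).coeff.support, MonoidAlgebra.single g⁻¹ (star ((A i j).coeff g))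
    = sbar (1 : Γ →* ℤˣ) (A i j)
  unfold sbar
  refine Finset.sum_congr rfl fun g _ => ?_
  rw [MonoidHom.one_apply, Units.val_one, one_smul]

theorem sym_eq {κ : Type} (ε : ℤ) (ψ : Matrix κ κ (MonoidAlgebra R Γ)) :
    symmetrization ε ψ = glam (1 : Γ →* ℤˣ) ε ψ := by
  unfold symmetrization glam
  rw [adjoint_eq]

theorem pattern_eq {κ μ : Type} (A : Matrix κ μ (MonoidAlgebra R Γ)) :
    pattern A = toReal (pat A) := by
  classical
  ext i j g
  simp only [toReal, Matrix.map_apply, MonoidAlgebra.coeff_mapRingHom, coeff_pat]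
  change (if (A i j).coeff g = 0 then (0 : ℝ) else 1) = ((ind ((A i j).coeff g) : ℤ) : ℝ)
  by_cases h : (A i j).coeff g = 0
  · rw [if_pos h, h, ind_zero, Int.cast_zero]
  · rw [if_neg h, ind_of_ne h, Int.cast_one]

theorem norm_iff {κ μ : Type} [Fintype κ] [Fintype μ] (A : Matrix κ μ (MonoidAlgebra R Γ))
    (c : ℝ) : NormLE (pattern A) c ↔ TH57.Thr.NormLE (pat A) c := by
  rw [pattern_eq]
  rfl

theorem hyperbolic_eq {μ : Type} [DecidableEq μ] :
    hyperbolic R Γ μ = TH6.LF.hyp (MonoidAlgebra R Γ) μ := by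
  ext1 x y
  rcases x with x | x <;> rcases y with y | y <;> simp [hyperbolic, planes, TH6.LF.hyp]

theorem iso_of {U : Subgroup (MonoidAlgebra R Γ)ˣ} {ε : ℤ} {ψ ψ' : Matrix κ κ (MonoidAlgebra R Γ)}
    (h : GIso (1 : Γ →* ℤˣ) U ε ψ ψ') : Isometric ε ψ ψ' := by
  obtain ⟨E, χ, _, h2⟩ := h
  refine ⟨E, χ, ?_⟩
  rw [adjoint_eq, adjoint_eq]
  exact h2

end aux

open Pool.Agent.N510.LT in
/-- Let `R` be any nontrivial ring with involution, `Γ` a group, `ε = ±1`, `λ_ψ = ψ + εψ*`. (1) If `Γ`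
has no element of order two (for instance, if `Γ` is torsion-free), each nonsingular `ε`-quadratic
form `ψ` of even rank over `RΓ` such that the support pattern of `λ_ψ - λ_H` has operator norm less
than `√2`, where `H` is the hyperbolic form, is isometric to a sum of planes defined over `R`.
(2) For all `R` and `Γ` each `ε`-quadratic form of even rank over `RΓ` is, after adding hyperbolic
planes, isometric to a form `φ` such that the support pattern of `λ_φ - λ_H` has operator norm at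
most `√2`. -/
theorem result (R : Type) [Ring R] [StarRing R] [Nontrivial R] (Γ : Type) [Group Γ] (ε : ℤ)
    (hε : ε = 1 ∨ ε = -1) :
    ((∀ g : Γ, g * g = 1 → g = 1) → ∀ c : ℝ, 0 ≤ c → c < Real.sqrt 2 →
      ∀ (κ : Type) [Fintype κ] [DecidableEq κ] (ψ : Matrix (κ ⊕ κ) (κ ⊕ κ) (MonoidAlgebra R Γ)),
        IsUnit (symmetrization ε ψ) →
        NormLE (pattern (symmetrization ε ψ - symmetrization ε (hyperbolic R Γ κ))) c →
        ∃ a b : κ → R, Isometric ε ψ (planes Γ a b)) ∧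
    ∀ (κ : Type) [Fintype κ] [DecidableEq κ] (ψ : Matrix (κ ⊕ κ) (κ ⊕ κ) (MonoidAlgebra R Γ)),
      ∃ (m : ℕ) (φ : Matrix ((κ ⊕ κ) ⊕ (Fin m ⊕ Fin m)) ((κ ⊕ κ) ⊕ (Fin m ⊕ Fin m))
        (MonoidAlgebra R Γ)),
        Isometric ε (fromBlocks ψ 0 0 (hyperbolic R Γ (Fin m))) φ ∧
        NormLE (pattern (symmetrization ε φ - symmetrization ε
            (fromBlocks (hyperbolic R Γ κ) 0 0 (hyperbolic R Γ (Fin m))))) (Real.sqrt 2) := by
  classical
  have hεε : ε * ε = 1 := by rcases hε with rfl | rfl <;> norm_num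
  refine ⟨fun htf c hc0 hc κ _ _ ψ hu hN => ?_, fun κ _ _ ψ => ?_⟩
  · have hc2 : c ^ 2 < 2 := by
      have h1 : c ^ 2 < Real.sqrt 2 ^ 2 := pow_lt_pow_left₀ hc hc0 two_ne_zero
      rwa [Real.sq_sqrt two_pos.le] at h1
    rw [sym_eq, sym_eq, hyperbolic_eq, norm_iff] at hN
    rw [sym_eq] at hu
    obtain ⟨a, b, h⟩ := allR_main (w := (1 : Γ →* ℤˣ)) htf hεε _ κ rfl ψ hu
      (mono_of_norm hc2 hN)
    exact ⟨a, b, iso_of h⟩
  · obtain ⟨m, P, h1, h2, h3, h4⟩ := sdist_form_fin (1 : Γ →* ℤˣ) (gens_univ (R := R)) ψ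
    have hH : (fromBlocks (hyperbolic R Γ κ) 0 0 (hyperbolic R Γ (Fin m)) :
        Matrix ((κ ⊕ κ) ⊕ (Fin m ⊕ Fin m)) ((κ ⊕ κ) ⊕ (Fin m ⊕ Fin m)) (MonoidAlgebra R Γ))
        = TH6.LF.addHyp (Fin m) (TH6.LF.hyp (MonoidAlgebra R Γ) κ) := by
      rw [hyperbolic_eq, hyperbolic_eq]
      rfl
    refine ⟨m, P.val * TH6.LF.addHyp (Fin m) ψ * TH6.PF.sadj (1 : Γ →* ℤˣ) P.val, ?_, ?_⟩
    · refine ⟨P, 0, ?_⟩
      rw [hyperbolic_eq, adjoint_eq, adjoint_eq, TH6.PF.sadj_zero, smul_zero, sub_zero, add_zero]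
      rfl
    · rw [hH, sym_eq, sym_eq, norm_iff]
      have h6 : glam (1 : Γ →* ℤˣ) ε (P.val * TH6.LF.addHyp (Fin m) ψ
            * TH6.PF.sadj (1 : Γ →* ℤˣ) P.val
          - TH6.LF.addHyp (Fin m) (TH6.LF.hyp (MonoidAlgebra R Γ) κ))
          = glam (1 : Γ →* ℤˣ) ε (P.val * TH6.LF.addHyp (Fin m) ψ
            * TH6.PF.sadj (1 : Γ →* ℤˣ) P.val)
            - glam (1 : Γ →* ℤˣ) ε (TH6.LF.addHyp (Fin m) (TH6.LF.hyp (MonoidAlgebra R Γ) κ)) := by
        unfold glam
        rw [TH6.PF.sadj_sub, smul_sub]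
        abel
      rw [← h6, pat_glam _ h2 hεε]
      exact h4

end Pool.Agent.Results.MP_8a3537_gt.HyperbolicDistanceAllRings
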