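import Pool.Agent.N506.PN.PH
import Pool.Agent.N506.FZ0

/-!
# Automorphism groups of free polynilpotent groups have finite decomposition complexity

Let `F` be the free group of rank `n` and `R` a normal subgroup of `F`. For a list
`cs = [c_m, …, c_1]` let `V = pn R cs`: `V = R` for the empty list, and `pn R (c :: cs)` is the term
`γ_{c+1}` of the lower central series of `pn R cs`. So `F ⧸ V` is the free polynilpotent group of
class `(c_1, …, c_m)` if `R = F`, and the free solvable group of length `m` if moreover all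
`c_i = 1`.

* The groups `Aut(F ⧸ V)` have finite decomposition complexity, for `R = F` and all `n` and `cs`.
* More generally let `F ⧸ R` be virtually poly-(torsion-free abelian), for example
  polycyclic-by-finite. Every group `B` of automorphisms of `F ⧸ V` which preserve `R ⧸ V` and whose
  image in `Aut(F ⧸ R)` has finite decomposition complexity has finite decomposition complexity.
-/

namespace Pool.Agent.Results.MP_8a3537_gt.SolvableAutomorphismsFDC

open Pool.Agent.N506.EX Pool.Agent.N506.FX Pool.Agent.N506.PN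

theorem result (n : ℕ) (cs : List ℕ) :
    FdcAut (FreeGroup (Fin n) ⧸ pn (⊤ : Subgroup (FreeGroup (Fin n))) cs) ∧
      ∀ (R : Subgroup (FreeGroup (Fin n))) [R.Normal],
        VPolyTFA (FreeGroup (Fin n) ⧸ R) → FdcAutOver (topP R cs) := by
  have main : ∀ (R : Subgroup (FreeGroup (Fin n))) [R.Normal],
      VPolyTFA (FreeGroup (Fin n) ⧸ R) → FdcAutOver (topP R cs) := by
    intro R _ hR B hB hE
    exact fdc_of_quot (topP R cs) (fdc_poly n R hR cs) hB hE
  refine ⟨?_, main⟩
  have htop : topP (⊤ : Subgroup (FreeGroup (Fin n))) cs = ⊤ :=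
    Subgroup.map_top_of_surjective _ (QuotientGroup.mk'_surjective _)
  have hB : (⊤ : Subgroup (MulAut (FreeGroup (Fin n) ⧸
      pn (⊤ : Subgroup (FreeGroup (Fin n))) cs))) ≤
      autPres (topP (⊤ : Subgroup (FreeGroup (Fin n))) cs) := by
    intro φ _
    rw [htop]
    exact Subgroup.map_top_of_surjective _ φ.surjective
  have hs : Subsingleton (FreeGroup (Fin n) ⧸ (⊤ : Subgroup (FreeGroup (Fin n)))) :=
    QuotientGroup.subsingleton_quotient_top
  have hsub : Subsingleton ((FreeGroup (Fin n) ⧸ pn (⊤ : Subgroup (FreeGroup (Fin n))) cs) ⧸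
      topP (⊤ : Subgroup (FreeGroup (Fin n))) cs) := by
    rw [htop]
    exact QuotientGroup.subsingleton_quotient_top
  have hA : Subsingleton (MulAut ((FreeGroup (Fin n) ⧸
      pn (⊤ : Subgroup (FreeGroup (Fin n))) cs) ⧸
      topP (⊤ : Subgroup (FreeGroup (Fin n))) cs)) :=
    ⟨fun a b => MulEquiv.ext fun x => Subsingleton.elim _ _⟩
  have hR : VPolyTFA (FreeGroup (Fin n) ⧸ (⊤ : Subgroup (FreeGroup (Fin n)))) :=
    ⟨⊤, inferInstance, PolyTFA.triv _⟩
  exact (FDC.equiv Subgroup.topEquiv).mp (main ⊤ hR ⊤ hB FDC.of_finite)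

end Pool.Agent.Results.MP_8a3537_gt.SolvableAutomorphismsFDC
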